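import Pool.Agent.H97.PK.Targets

/-!
ISL: slices of intersections of balls.
-/

open MeasureTheory Set Metric Real
open scoped ENNReal

namespace Pool.Agent.H51.PK

open Pool.Agent.H97.PK

theorem pf_isl (hFUB : T_FUB) : T_ISL := by
  intro d m ι _ _ p a τ ha
  obtain ⟨hF, hP⟩ := hFUB d m
  have hA : MeasurableSet (⋂ i, closedBall (emb m (p i)) (√(a i + τ))) :=
    MeasurableSet.iInter fun i => measurableSet_closedBall
  unfold vI
  rw [← lintegral_indicator_one hA, hF _ (measurable_one.indicator hA)]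
  refine lintegral_congr fun z => ?_
  have hS : MeasurableSet {y : E d | ∀ i, ‖y - p i‖ ^ 2 - a i ≤ τ - ‖z‖ ^ 2} := by
    have : {y : E d | ∀ i, ‖y - p i‖ ^ 2 - a i ≤ τ - ‖z‖ ^ 2} =
        ⋂ i, {y : E d | ‖y - p i‖ ^ 2 - a i ≤ τ - ‖z‖ ^ 2} := by
      ext y
      simp
    rw [this]
    exact MeasurableSet.iInter fun i => measurableSet_le (by fun_prop) (by fun_prop)
  rw [← lintegral_indicator_one hS]
  refine lintegral_congr fun y => ?_
  have hiff : pr y z ∈ (⋂ i, closedBall (emb m (p i)) (√(a i + τ))) ↔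
      y ∈ {y : E d | ∀ i, ‖y - p i‖ ^ 2 - a i ≤ τ - ‖z‖ ^ 2} := by
    rw [mem_iInter]
    refine forall_congr' fun i => ?_
    rw [mem_closedBall, dist_eq_norm, Real.le_sqrt (norm_nonneg _) (ha i), hP]
    constructor <;> intro h <;> linarith
  by_cases hy : pr y z ∈ (⋂ i, closedBall (emb m (p i)) (√(a i + τ)))
  · rw [indicator_of_mem hy, indicator_of_mem (hiff.mp hy)]
    rfl
  · rw [indicator_of_notMem hy, indicator_of_notMem (fun h => hy (hiff.mpr h))]

end Pool.Agent.H51.PK
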