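import Pool.Agent.H97.PK.Targets

/-!
LAY: layer cake in normalised squared radii.
-/

open MeasureTheory Set Metric Real
open scoped ENNReal

namespace Pool.Agent.H51.PK

open Pool.Agent.H97.PK

/-- the exponential as an integral -/
lemma exp_layer (Γ : ℝ) (hΓ : 0 < Γ) (t : ℝ) : ENNReal.ofReal (exp (Γ * (1 - t))) =
    ∫⁻ s in Ioi t, ENNReal.ofReal (Γ * exp (Γ * (1 - s))) := by
  have h1 : ∀ s : ℝ, Γ * exp (Γ * (1 - s)) = Γ * exp Γ * exp (-Γ * s) := by
    intro s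
    rw [mul_assoc, ← exp_add]
    congr 2
    ring
  have hint : IntegrableOn (fun s : ℝ => Γ * exp Γ * exp (-Γ * s)) (Ioi t) :=
    (integrableOn_exp_mul_Ioi (neg_lt_zero.mpr hΓ) t).const_mul _
  simp only [h1]
  rw [← ofReal_integral_eq_lintegral_ofReal hint
    (Filter.Eventually.of_forall fun s => by positivity), integral_const_mul,
    integral_exp_mul_Ioi (neg_lt_zero.mpr hΓ)]
  congr 1
  have h2 : Γ * exp Γ * (-exp (-Γ * t) / -Γ) = exp Γ * exp (-Γ * t) := by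
    field_simp
  rw [h2, ← exp_add]
  congr 1
  ring

theorem pf_lay : T_LAY := by
  intro d hd C hC c ρ l hρ hl
  have hΓ : 0 < l * ρ ^ 2 := by positivity
  set Γ := l * ρ ^ 2 with hΓdef
  set K : ℝ → ℝ≥0∞ := fun s => ENNReal.ofReal (Γ * exp (Γ * (1 - s))) with hK
  have hKm : Measurable K := by
    refine ENNReal.measurable_ofReal.comp ?_
    fun_prop
  have hg : ∀ y : E d, gau l c ρ y = exp (Γ * (1 - ‖y - c‖ ^ 2 / ρ ^ 2)) := by
    intro y
    unfold gau
    congr 1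
    rw [hΓdef]
    field_simp
  have hT : MeasurableSet {z : E d × ℝ | ‖z.1 - c‖ ^ 2 / ρ ^ 2 < z.2} :=
    measurableSet_lt (by fun_prop) (by fun_prop)
  have h1 : ∀ y : E d, ENNReal.ofReal (gau l c ρ y) = ∫⁻ s in Ioi (0 : ℝ),
      K s * {z : E d × ℝ | ‖z.1 - c‖ ^ 2 / ρ ^ 2 < z.2}.indicator 1 (y, s) := by
    intro y
    have ht : 0 ≤ ‖y - c‖ ^ 2 / ρ ^ 2 := by positivity
    rw [hg, exp_layer Γ hΓ]
    have h2 : ∀ s : ℝ, K s * {z : E d × ℝ | ‖z.1 - c‖ ^ 2 / ρ ^ 2 < z.2}.indicator 1 (y, s) =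
        (Ioi (‖y - c‖ ^ 2 / ρ ^ 2)).indicator K s := by
      intro s
      by_cases hs : ‖y - c‖ ^ 2 / ρ ^ 2 < s
      · rw [indicator_of_mem (show s ∈ Ioi (‖y - c‖ ^ 2 / ρ ^ 2) from hs), indicator_of_mem (show
          (y, s) ∈ {z : E d × ℝ | ‖z.1 - c‖ ^ 2 / ρ ^ 2 < z.2} from hs)]
        simp
      · rw [indicator_of_notMem (show s ∉ Ioi (‖y - c‖ ^ 2 / ρ ^ 2) from hs), indicator_of_notMem (show
          (y, s) ∉ {z : E d × ℝ | ‖z.1 - c‖ ^ 2 / ρ ^ 2 < z.2} from hs), mul_zero]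
    simp only [h2]
    rw [lintegral_indicator measurableSet_Ioi, Measure.restrict_restrict measurableSet_Ioi,
      Ioi_inter_Ioi, max_eq_left ht]
  simp only [h1]
  rw [lintegral_lintegral_swap]
  · refine setLIntegral_congr_fun measurableSet_Ioi fun s hs => ?_
    have hs' : 0 < s := hs
    show ∫⁻ y in C, K s * {z : E d × ℝ | ‖z.1 - c‖ ^ 2 / ρ ^ 2 < z.2}.indicator 1 (y, s) =
      K s * volume (C ∩ ball c (√s * ρ))
    have h3 : ∀ y : E d, {z : E d × ℝ | ‖z.1 - c‖ ^ 2 / ρ ^ 2 < z.2}.indicator (1 : E d × ℝ → ℝ≥0∞)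
        (y, s) = (ball c (√s * ρ)).indicator 1 y := by
      intro y
      have h4 : y ∈ ball c (√s * ρ) ↔ ‖y - c‖ ^ 2 / ρ ^ 2 < s := by
        rw [mem_ball, dist_eq_norm, div_lt_iff₀ (by positivity)]
        have h5 : s * ρ ^ 2 = (√s * ρ) ^ 2 := by
          rw [mul_pow, sq_sqrt hs'.le]
        rw [h5]
        exact (pow_lt_pow_iff_left₀ (norm_nonneg _) (by positivity) two_ne_zero).symm
      by_cases hy : ‖y - c‖ ^ 2 / ρ ^ 2 < s
      · rw [indicator_of_mem (h4.mpr hy), indicator_of_mem (show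
          (y, s) ∈ {z : E d × ℝ | ‖z.1 - c‖ ^ 2 / ρ ^ 2 < z.2} from hy)]
        rfl
      · rw [indicator_of_notMem (fun h => hy (h4.mp h)), indicator_of_notMem (show
          (y, s) ∉ {z : E d × ℝ | ‖z.1 - c‖ ^ 2 / ρ ^ 2 < z.2} from hy)]
    simp only [h3]
    rw [lintegral_const_mul _ (measurable_one.indicator measurableSet_ball),
      lintegral_indicator_one measurableSet_ball, Measure.restrict_apply measurableSet_ball, inter_comm]
  · refine Measurable.aemeasurable ?_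
    exact (hKm.comp measurable_snd).mul (measurable_one.indicator hT)

end Pool.Agent.H51.PK
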